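import Mathlib
import Pool.Agent.Helper203.Boxes
import Pool.Agent.Helper203.HStmt

set_option autoImplicit false

open Complex Metric Set Filter MeasureTheory ContinuousLinearMap
open scoped Real Topology ComplexConjugate ENNReal

open Pool.Agent.Helper203.Hardy

namespace Pool.Agent.Results.MP_eb20fa_an.UATCharacterisation

theorem isMz_Mz : IsMz Mz := fun f _ hz => ev_Mz f (mem_ball_zero_iff.1 hz)

theorem eval_inj {f g : HS} (h : ∀ z ∈ ball (0 : ℂ) 1, eval f z = eval g z) : f = g :=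
  ev_injective (f := f) (g := g) h

theorem isMz_unique {S S' : Op} (h : IsMz S) (h' : IsMz S') : S = S' := by
  ext1 f
  apply eval_inj
  intro z hz
  exact (h f z hz).trans (h' f z hz).symm

/-- Characterisation of the analytic self-maps `φ` of the disc for which `C_φ^* C_φ` is uniformly
asymptotically Toeplitz: exactly those for which the part of `mφ⁻¹` in the open disc is a
vanishing Carleson measure. -/
theorem result (φ : ℂ → ℂ) (hφ : DifferentiableOn ℂ φ (ball 0 1))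
    (hm : MapsTo φ (ball (0 : ℂ) 1) (ball 0 1)) :
    (∀ᵐ θ ∂mT, Tendsto (fun r : ℝ => φ (circleMap 0 r θ)) (𝓝[<] 1) (𝓝 (bv φ θ))) ∧
    AEMeasurable (bv φ) mT ∧
    (∃! S : Op, IsMz S) ∧
    (∃! C : Op, IsCompOp φ C) ∧
    ∀ S C : Op, IsMz S → IsCompOp φ C →
      List.TFAE [
        UAT S (star C * C),
        VanishingCarleson (pull φ),
        ∀ ε > 0, ∃ δ > 0, ∀ a : ℂ, 1 - δ < ‖a‖ → ‖a‖ < 1 →
          ∫ z, (1 - ‖a‖ ^ 2) / ‖1 - conj a * z‖ ^ 2 ∂(pull φ) ≤ ε] := by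
  refine ⟨bv_tendsto hφ hm, bv_aemeas hφ hm, ⟨Mz, isMz_Mz, fun S hS => isMz_unique hS isMz_Mz⟩, ?_, ?_⟩
  · obtain ⟨C, hC⟩ := exists_comp hφ hm
    refine ⟨C, hC, fun C' hC' => ?_⟩
    ext1 f
    apply eval_inj
    intro z hz
    exact (hC' f z hz).trans (hC f z hz).symm
  · intro S C hS hC
    have hSe : S = Mz := isMz_unique hS isMz_Mz
    have hC' : ∀ f : H2, ∀ z ∈ ball (0 : ℂ) 1, ev ((id C : H2 →L[ℂ] H2) f) z = ev f (φ z) := hC
    have hU : UAT S (star C * C) ↔
        ∃ L : H2 →L[ℂ] H2, Tendsto (compress (adjoint (id C : H2 →L[ℂ] H2) ∘L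
          (id C : H2 →L[ℂ] H2))) atTop (𝓝 L) := by
      rw [hSe]
      exact Iff.rfl
    rw [hU]
    tfae_have 1 → 3 := by
      rintro ⟨L, hL⟩
      have h := uat_imp_KC hφ hm hC' (T := L) hL
      intro ε hε
      obtain ⟨δ, hδ, h2⟩ := h ε hε
      refine ⟨δ, hδ, fun a ha1 ha => ?_⟩
      refine le_trans (le_of_eq ?_) (h2 a ha1 ha)
      exact pull_integral hφ hm a
    tfae_have 3 → 1 := by
      intro h
      apply KC_imp_uat hφ hm hC'
      intro ε hε
      obtain ⟨δ, hδ, h2⟩ := h ε hε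
      refine ⟨δ, hδ, fun a ha1 ha => ?_⟩
      refine le_trans (le_of_eq ?_) (h2 a ha1 ha)
      exact (pull_integral hφ hm a).symm
    tfae_have 3 → 2 := KC_imp_VC hφ hm
    tfae_have 2 → 3 := VC_imp_KC hφ hm
    tfae_finish

end Pool.Agent.Results.MP_eb20fa_an.UATCharacterisation
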